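import Mathlib
import Pool.Agent.Work.MP_dd0251_mp.SpecOp
import Pool.Agent.Work.MP_dd0251_mp.SpecGen
import Pool.Agent.Work.MP_dd0251_mp.Support

set_option autoImplicit false

open MeasureTheory Filter Topology

namespace Pool.Agent.Results.MP_dd0251_mp.LiminfFails

noncomputable section

/-- The Hilbert space of square summable complex sequences; the index `n` stands for the
site `n + 1` of the problem file. -/
abbrev L2 : Type := lp (fun _ : ℕ => ℂ) 2

/-- The first basis vector. -/
def delta : L2 := lp.single 2 0 (1 : ℂ)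

/-- `J` is the Jacobi operator with off-diagonal entries `a` and diagonal entries `b`. -/
def IsJacobi (a b : ℕ → ℝ) (J : L2 →L[ℂ] L2) : Prop :=
  ∀ (u : L2) (n : ℕ), J u n =
    a n * u (n + 1) + b n * u n + (if n = 0 then 0 else a (n - 1) * u (n - 1))

/-- `ν` is the spectral measure of the self-adjoint operator `T` for the vector `v`:
`∫ f dν = ⟨v, f(T) v⟩` for all continuous `f`. -/
def IsSpectralMeasure {E : Type} [NormedAddCommGroup E] [InnerProductSpace ℂ E] [CompleteSpace E]
    (T : E →L[ℂ] E) (v : E) (ν : Measure ℝ) : Prop :=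
  IsFiniteMeasure ν ∧ ∀ f : ℝ → ℝ, Continuous f →
    Integrable f ν ∧ ((∫ x, f x ∂ν : ℝ) : ℂ) = inner ℂ v (cfc f T v)

/-- `S` is an essential support of the absolutely continuous part of `ν`: this part and
Lebesgue measure restricted to `S` are mutually absolutely continuous. -/
def IsEssentialSupport (ν : Measure ℝ) (S : Set ℝ) : Prop :=
  MeasurableSet S ∧ volume.withDensity (ν.rnDeriv volume) ≪ volume.restrict S ∧
    volume.restrict S ≪ volume.withDensity (ν.rnDeriv volume)

/-- The transfer matrices `T_E(n)`. -/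
def transfer (a b : ℕ → ℝ) (E : ℝ) : ℕ → Matrix (Fin 2) (Fin 2) ℝ
  | 0 => 1
  | n + 1 => ((a n)⁻¹ • !![E - b n, -1; a n ^ 2, 0]) * transfer a b E n

open Pool.Agent.Work.MP_dd0251_mp in
lemma transfer_st (b : ℕ → ℝ) (E : ℝ) (n : ℕ) : transfer (fun _ => 1) b E n =
    !![(st b E (1, 0) n).1, (st b E (0, 1) n).1; (st b E (1, 0) n).2, (st b E (0, 1) n).2] := by
  induction n with
  | zero => simp [transfer, st, Matrix.one_fin_two]
  | succ n ih =>
    rw [transfer, ih]
    ext i j
    fin_cases i <;> fin_cases j <;> simp [st, Matrix.mul_apply, Fin.sum_univ_two, sub_eq_add_neg]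

open Pool.Agent.Work.MP_dd0251_mp in
lemma pa_st (b : ℕ → ℝ) (C : ℝ) (hC : ∀ n, |b n| ≤ C) (m : ℕ) :
    pa (Jop b C hC) (dl 0) (stP b (1, 0) m).1 = dl m ∧
    pa (Jop b C hC) (dl 0) (stP b (1, 0) m).2 = if m = 0 then 0 else dl (m - 1) := by
  induction m with
  | zero =>
    constructor
    · simp only [stP]
      rw [pa_C]; simp
    · simp only [stP]
      rw [pa_C]; simp
  | succ m ih =>
    constructor
    · simp only [stP]
      rw [pa_sub, sub_mul, pa_sub, pa_X_mul, pa_C_mul, ih.1, ih.2, Jop_dl]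
      abel
    · simp only [stP]
      rw [ih.1]; simp

open Pool.Agent.Work.MP_dd0251_mp in
/-- There is a bounded potential `b` with values in `[-4, 0]` such that, for the discrete
Schrödinger operator (Jacobi operator with `a = 1`) `J` with potential `b` and its spectral
measure `ν` for the first basis vector, all transfer matrices for all energies `E ∈ [0, 1]`
have entries bounded by `5` for infinitely many `n`, while the essential support of the
absolutely continuous part of `ν` does not meet `[0, 1]`, up to a null set. -/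
theorem result : ∃ (b : ℕ → ℝ) (J : L2 →L[ℂ] L2) (ν : Measure ℝ),
    (∀ n, -4 ≤ b n ∧ b n ≤ 0) ∧ IsSelfAdjoint J ∧ IsJacobi (fun _ => 1) b J ∧
    IsSpectralMeasure J delta ν ∧
    (∀ E ∈ Set.Icc (0 : ℝ) 1, ∃ᶠ n in atTop, ∀ i j, |transfer (fun _ => 1) b E n i j| ≤ 5) ∧
    ∀ S : Set ℝ, IsEssentialSupport ν S → volume (S ∩ Set.Icc 0 1) = 0 := by
  obtain ⟨b, hb, hret, hgrow⟩ := exists_potential
  have hb4 : ∀ m, |b m| ≤ 4 := fun m => abs_le.2 ⟨by linarith [(hb m).1], by linarith [(hb m).2]⟩
  obtain ⟨μ, hμ, hsupp, hmom⟩ := exists_moments b 4 (by norm_num) hb4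
  have hsa := Jop_selfAdjoint b 4 hb4
  have := nontrivial_H
  have hspec : IsSpec (Jop b 4 hb4) (dl 0) μ := by
    apply isSpec_of_moments (Jop b 4 hb4) hsa (dl 0) μ (3 * 4) hsupp
    intro k
    rw [hmom, inner_dl, Jop_pow]
  have hpoly : ∀ m (x : ℝ), (st b x (1, 0) m).1 = (stP b (1, 0) m).1.eval x := fun m x => by
    rw [← stP_eval]
  have hone : ∀ m : ℕ, ∫ x, ((st b x (1, 0) m).1) ^ 2 ∂μ = 1 := by
    intro m
    simp only [hpoly]
    rw [hspec.sq hsa, (pa_st b 4 hb4 m).1, norm_dl]
    norm_num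
  have hint : ∀ m : ℕ, Integrable (fun x : ℝ => ((st b x (1, 0) m).1) ^ 2) μ := by
    intro m
    simp only [hpoly]
    exact (hspec.2 _ ((stP b (1, 0) m).1.continuous.pow 2)).1
  have hno := no_ac b μ hint hone hgrow
  refine ⟨b, Jop b 4 hb4, μ, hb, hsa, fun u n => ?_, hspec, ?_, ?_⟩
  · rw [Jop_apply, jac]
  · intro E hE
    rw [frequently_atTop]
    intro N
    obtain ⟨m, hmN, h1, h2, h3, h4⟩ := hret E hE.1 hE.2 N
    refine ⟨m, hmN, fun i j => ?_⟩
    rw [transfer_st]
    fin_cases i <;> fin_cases j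
    · exact h1
    · exact h3
    · exact h2
    · exact h4
  · rintro S ⟨hS, -, hac⟩
    have h1 : (volume.withDensity (μ.rnDeriv volume)) (Set.Icc (0:ℝ) 1) = 0 := by
      rw [withDensity_apply _ measurableSet_Icc,
        lintegral_eq_zero_iff (Measure.measurable_rnDeriv μ volume), EventuallyEq, ae_iff,
        Measure.restrict_apply']
      · convert hno using 3
        ext x
        simp [pos_iff_ne_zero]
      · exact measurableSet_Icc
    have h2 := hac h1
    rwa [Measure.restrict_apply measurableSet_Icc, Set.inter_comm] at h2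

end

end Pool.Agent.Results.MP_dd0251_mp.LiminfFails
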